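import Mathlib

/-!
# Roots of unity and matrices of finite order
-/

namespace Pool.Agent.H67.SQ

open Matrix Finset

/-- the cotangent of half the argument -/
noncomputable def ct (α : ℂ) : ℝ := ((1 + α) / (1 - α)).im

lemma ct_spec {α : ℂ} {n : ℕ} (hn : n ≠ 0) (h : α ^ n = 1) (h1 : α ≠ 1) :
    (1 + α) / (1 - α) = Complex.I * (ct α : ℂ) := by
  have hnorm : ‖α‖ = 1 := Complex.norm_eq_one_of_pow_eq_one h hn
  have h0 : α ≠ 0 := by
    rintro rfl
    rw [norm_zero] at hnorm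
    norm_num at hnorm
  have hconj : (starRingEnd ℂ) α = α⁻¹ := (Complex.inv_eq_conj hnorm).symm
  have h2 : 1 - α ≠ 0 := sub_ne_zero.mpr (Ne.symm h1)
  have h3 : (starRingEnd ℂ) ((1 + α) / (1 - α)) = -((1 + α) / (1 - α)) := by
    rw [map_div₀, map_add, map_sub, map_one, hconj]
    have h4 : 1 - α⁻¹ ≠ 0 := by
      intro h5
      apply h1
      have h6 : α⁻¹ = 1 := (sub_eq_zero.mp h5).symm
      rwa [inv_eq_one] at h6
    rw [div_eq_iff h4, ← neg_div, div_mul_eq_mul_div, eq_div_iff h2]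
    field_simp
    ring
  have h4 : ((1 + α) / (1 - α)).re = 0 := by
    have h5 := congrArg Complex.re h3
    rw [Complex.conj_re, Complex.neg_re] at h5
    linarith
  refine Complex.ext ?_ ?_
  · rw [h4]; simp
  · simp [ct]

lemma csc_spec {α : ℂ} {n : ℕ} (hn : n ≠ 0) (h : α ^ n = 1) (h1 : α ≠ 1) :
    -4 * α / (1 - α) ^ 2 = ((1 + ct α ^ 2 : ℝ) : ℂ) := by
  have h2 : 1 - α ≠ 0 := sub_ne_zero.mpr (Ne.symm h1)
  have h3 : -4 * α / (1 - α) ^ 2 = 1 - ((1 + α) / (1 - α)) ^ 2 := by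
    field_simp
    ring
  rw [h3, ct_spec hn h h1, mul_pow, Complex.I_sq]
  push_cast
  ring

lemma sum_roots {p : ℕ} (hp : p.Prime) {α : ℂ} (h : α ^ p = 1) (h1 : α ≠ 1) (F : ℂ → ℝ) :
    ∑ j ∈ Ico 1 p, F (α ^ j) = ∑ w ∈ (Polynomial.nthRootsFinset p (1 : ℂ)).erase 1, F w := by
  have : Fact p.Prime := ⟨hp⟩
  have hord : orderOf α = p := orderOf_eq_prime h h1
  have hprim : IsPrimitiveRoot α p := by
    rw [← hord]; exact IsPrimitiveRoot.orderOf α
  have hinj : Set.InjOn (fun j => α ^ j) (Ico 1 p : Finset ℕ) := by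
    intro i hi j hj hij
    rw [Finset.mem_coe, Finset.mem_Ico] at hi hj
    exact hprim.pow_inj hi.2 hj.2 hij
  rw [← Finset.sum_image hinj (f := F)]
  refine Finset.sum_congr ?_ fun _ _ => rfl
  refine Finset.eq_of_subset_of_card_le ?_ ?_
  · intro w hw
    obtain ⟨j, hj, rfl⟩ := Finset.mem_image.mp hw
    rw [Finset.mem_Ico] at hj
    refine Finset.mem_erase.mpr ⟨?_, ?_⟩
    · intro h2
      have h3 := (hprim.pow_eq_one_iff_dvd j).mp h2
      have := Nat.le_of_dvd (by omega) h3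
      omega
    · rw [Polynomial.mem_nthRootsFinset hp.pos]
      change (α ^ j) ^ p = 1
      rw [← pow_mul, mul_comm, pow_mul, h, one_pow]
  · rw [Finset.card_image_of_injOn hinj, Nat.card_Ico, Finset.card_erase_of_mem,
      hprim.card_nthRootsFinset]
    rw [Polynomial.mem_nthRootsFinset hp.pos]
    exact one_pow p

lemma det_add (B : Matrix (Fin 2) (Fin 2) ℂ) : (1 + B).det = 1 + B.trace + B.det := by
  rw [Matrix.det_fin_two, Matrix.det_fin_two, Matrix.trace_fin_two]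
  simp
  ring

lemma det_sub (B : Matrix (Fin 2) (Fin 2) ℂ) : (1 - B).det = 1 - B.trace + B.det := by
  rw [Matrix.det_fin_two, Matrix.det_fin_two, Matrix.trace_fin_two]
  simp
  ring

lemma cayley (A : Matrix (Fin 2) (Fin 2) ℂ) : A * A = A.trace • A - A.det • 1 := by
  rw [Matrix.det_fin_two, Matrix.trace_fin_two]
  ext i j
  fin_cases i <;> fin_cases j <;> simp [Matrix.mul_apply, Fin.sum_univ_two] <;> ring

lemma trace_pow (A : Matrix (Fin 2) (Fin 2) ℂ) (α β : ℂ) (hs : α + β = A.trace)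
    (hd : α * β = A.det) (n : ℕ) :
    (A ^ n).trace = α ^ n + β ^ n ∧ (A ^ (n + 1)).trace = α ^ (n + 1) + β ^ (n + 1) := by
  induction n with
  | zero =>
    refine ⟨?_, ?_⟩
    · rw [pow_zero, pow_zero, pow_zero]
      simp
      norm_num
    · rw [zero_add, pow_one, pow_one, pow_one]
      exact hs.symm
  | succ n ih =>
    refine ⟨ih.2, ?_⟩
    have h : A ^ (n + 1 + 1) = A.trace • A ^ (n + 1) - A.det • A ^ n := by
      rw [pow_succ, pow_succ, mul_assoc, cayley A, Matrix.mul_sub, Matrix.mul_smul,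
        Matrix.mul_smul, Matrix.mul_one]
    rw [h, Matrix.trace_sub, Matrix.trace_smul, Matrix.trace_smul, ih.1, ih.2, ← hs, ← hd,
      smul_eq_mul, smul_eq_mul]
    ring

lemma eig_pow (A : Matrix (Fin 2) (Fin 2) ℂ) {n : ℕ} (hA : A ^ n = 1) (α : ℂ)
    (hα : α ^ 2 - A.trace * α + A.det = 0) : α ^ n = 1 := by
  have h1 : (α • (1 : Matrix (Fin 2) (Fin 2) ℂ) - A).det = 0 := by
    rw [← hα, Matrix.det_fin_two, Matrix.det_fin_two, Matrix.trace_fin_two]
    simp
    ring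
  obtain ⟨v, hv0, hv⟩ := Matrix.exists_mulVec_eq_zero_iff.mpr h1
  rw [Matrix.sub_mulVec, Matrix.smul_mulVec, Matrix.one_mulVec, sub_eq_zero] at hv
  have h2 : ∀ m : ℕ, A ^ m *ᵥ v = α ^ m • v := by
    intro m
    induction m with
    | zero => rw [pow_zero, pow_zero, Matrix.one_mulVec, one_smul]
    | succ m ih =>
      rw [pow_succ, ← Matrix.mulVec_mulVec, ← hv, Matrix.mulVec_smul, ih, smul_smul, pow_succ,
        mul_comm]
  have h3 := h2 n
  rw [hA, Matrix.one_mulVec] at h3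
  have h4 : (α ^ n - 1) • v = 0 := by rw [sub_smul, ← h3, one_smul, sub_self]
  rcases smul_eq_zero.mp h4 with h | h
  · exact sub_eq_zero.mp h
  · exact absurd h hv0

/-- the eigenvalues of a matrix of finite order without eigenvalue one -/
lemma exists_eig (A : Matrix (Fin 2) (Fin 2) ℂ) {n : ℕ} (hA : A ^ n = 1)
    (h : (1 - A).det ≠ 0) : ∃ α β : ℂ, α ^ n = 1 ∧ α ≠ 1 ∧ β ^ n = 1 ∧ β ≠ 1 ∧
      ∀ j : ℕ, (1 + A ^ j).det = (1 + α ^ j) * (1 + β ^ j) ∧
        (1 - A ^ j).det = (1 - α ^ j) * (1 - β ^ j) := by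
  obtain ⟨s, hs⟩ := IsAlgClosed.exists_pow_nat_eq (A.trace ^ 2 - 4 * A.det) (n := 2) (by norm_num)
  set α := (A.trace + s) / 2 with hα
  set β := (A.trace - s) / 2 with hβ
  have h1 : α + β = A.trace := by rw [hα, hβ]; ring
  have h2 : α * β = A.det := by
    rw [hα, hβ]
    linear_combination (-1 / 4 : ℂ) * hs
  have h3 : (1 - α) * (1 - β) ≠ 0 := by
    have : (1 - α) * (1 - β) = (1 - A).det := by
      rw [det_sub, ← h1, ← h2]; ring
    rw [this]; exact h
  refine ⟨α, β, eig_pow A hA α ?_, ?_, eig_pow A hA β ?_, ?_, fun j => ?_⟩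
  · rw [← h1, ← h2]; ring
  · intro h4; apply h3; rw [h4]; ring
  · rw [← h1, ← h2]; ring
  · intro h4; apply h3; rw [h4]; ring
  · rw [det_add, det_sub, (trace_pow A α β h1 h2 j).1, Matrix.det_pow, ← h2, mul_pow]
    refine ⟨by ring, by ring⟩

end Pool.Agent.H67.SQ
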