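import Mathlib

/-!
# Finite groups of symplectomorphisms of a four-manifold homeomorphic to `S² × S²`

`SymplecticAction G M` collects what is used of a faithful action of a finite group `G` by
symplectomorphisms on a closed symplectic four-manifold `M` homeomorphic to `S² × S²`. Its second
cohomology has a basis `e, f` with `e² = f² = 0`, `e·f = 1`; classes are written in this basis.
-/

namespace Pool.Agent.H67.SQ

open Matrix

/-- The intersection form of `S² × S²` in the basis `e, f`. -/
def dot (x y : Fin 2 → ℤ) : ℤ := x 0 * y 1 + x 1 * y 0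

/-- A surface of fixed points of a symplectomorphism: its set of points, its genus, its
class in `H²(M;ℤ)`, and the eigenvalue of the differential on the normal bundle. -/
structure Surface (M : Type) where
  carrier : Set M
  genus : ℕ
  cls : Fin 2 → ℤ
  normal : ℂ

/-- The same surface as a surface of fixed points of a power: the eigenvalue becomes its power. -/
def Surface.pow {M : Type} (S : Surface M) (j : ℕ) : Surface M :=
  { S with normal := S.normal ^ j }

/-- The data of a faithful action of a finite group `G` by symplectomorphisms on a closed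
symplectic four-manifold `M` homeomorphic to `S² × S²`. -/
structure SymplecticAction (G M : Type) [Group G] [MulAction G M] where
  /-- the class of the symplectic form; its square is positive, so both coordinates have the same
  sign, and we choose the basis so that they are positive -/
  ω : Fin 2 → ℝ
  ω_pos : ∀ i, 0 < ω i
  /-- the canonical class; it is characteristic, so even, and its square is `2χ + 3σ = 8` -/
  K : Fin 2 → ℤ
  K_even : ∀ i, Even (K i)
  K_sq : dot K K = 8
  /-- the action on `H²(M;ℤ)`; it preserves the intersection form and the canonical class -/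
  act : G →* Matrix (Fin 2) (Fin 2) ℤ
  act_dot : ∀ g x y, dot (act g *ᵥ x) (act g *ᵥ y) = dot x y
  act_K : ∀ g, act g *ᵥ K = K
  /-- the differential of `g` on the complex plane `T_x M`, for `g x = x` -/
  lin : G → M → Matrix (Fin 2) (Fin 2) ℂ
  lin_one : ∀ x, lin 1 x = 1
  lin_mul : ∀ g h x, g • x = x → h • x = x → lin (g * h) x = lin g x * lin h x
  /-- the isolated fixed points of `g ≠ 1` -/
  iso : G → Finset M
  mem_iso : ∀ g, g ≠ 1 → ∀ x, x ∈ iso g ↔ g • x = x ∧ (1 - lin g x).det ≠ 0
  /-- the surfaces of fixed points of `g ≠ 1` -/
  surfaces : G → List (Surface M)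
  mem_surfaces : ∀ g, g ≠ 1 → ∀ x,
    (∃ S ∈ surfaces g, x ∈ S.carrier) ↔ g • x = x ∧ (1 - lin g x).det = 0
  nonempty : ∀ g, g ≠ 1 → ∀ S ∈ surfaces g, S.carrier.Nonempty
  normal_pow : ∀ g, g ≠ 1 → ∀ S ∈ surfaces g, S.normal ^ orderOf g = 1 ∧ S.normal ≠ 1
  /-- a power of `g` which generates the same group has the same surfaces of fixed points -/
  surfaces_pow : ∀ g, g ≠ 1 → ∀ j : ℕ, j.Coprime (orderOf g) →
    surfaces (g ^ j) = (surfaces g).map fun S => S.pow j
  /-- different surfaces of fixed points of `g` are disjoint -/
  disjoint : ∀ g, g ≠ 1 → (surfaces g).Pairwise fun S T => dot S.cls T.cls = 0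
  /-- surfaces of fixed points are symplectic: their area is positive -/
  area : ∀ g, g ≠ 1 → ∀ S ∈ surfaces g, 0 < ω 0 * S.cls 1 + ω 1 * S.cls 0
  /-- surfaces of fixed points are symplectic: the adjunction formula -/
  adjunction : ∀ g, g ≠ 1 → ∀ S ∈ surfaces g,
    2 * (S.genus : ℤ) - 2 = dot S.cls S.cls + dot K S.cls
  /-- Lefschetz' fixed point formula -/
  lefschetz : ∀ g, g ≠ 1 → 2 + (act g).trace
    = (iso g).card + ((surfaces g).map fun S => 2 - 2 * (S.genus : ℤ)).sum
  /-- the `G`-signature theorem; the trace of `g` on `H⁺` is `1`, as `b⁺ = 1` and `g` fixes the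
  class of the symplectic form, so the difference of the traces on `H⁺` and `H⁻` is two minus the
  trace on `H²` -/
  signature : ∀ g, g ≠ 1 → ((2 - (act g).trace : ℤ) : ℂ)
    = ∑ x ∈ iso g, (1 + lin g x).det / (1 - lin g x).det
      + ((surfaces g).map fun S =>
          ((dot S.cls S.cls : ℤ) : ℂ) * (-4 * S.normal / (1 - S.normal) ^ 2)).sum
  /-- Atiyah and Bott: `M` is spin with a unique spin structure, so the components of the fixed
  set of an involution have dimensions congruent modulo four -/
  spin : ∀ g, orderOf g = 2 → iso g = ∅ ∨ surfaces g = []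
  /-- Edmonds: if `g` of prime order acts trivially on `H²`, the fixed set has no odd
  cohomology -/
  edmonds : ∀ g, (orderOf g).Prime → act g = 1 → ∀ S ∈ surfaces g, S.genus = 0

variable {G M : Type} [Group G] [MulAction G M]

/-- `M` is not rational: `K · [ω] > 0`. -/
def SymplecticAction.NotRational (D : SymplecticAction G M) : Prop :=
  0 < D.ω 0 * D.K 1 + D.ω 1 * D.K 0

end Pool.Agent.H67.SQ
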