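import Mathlib
import Pool.Agent.H67.SQ.Defs

/-!
# The canonical class, the action on the cohomology, involutions
-/

namespace Pool.Agent.H67.SQ

open Matrix

/-- the exchange of `e` and `f` -/
def J : Matrix (Fin 2) (Fin 2) ℤ := !![0, 1; 1, 0]

lemma J_ne : J ≠ 1 := by
  intro h
  have := congrFun (congrFun h 0) 0
  simp [J] at this

lemma J_mul : J * J = 1 := by
  unfold J
  ext i j
  fin_cases i <;> fin_cases j <;> simp [Matrix.mul_apply, Fin.sum_univ_two]

lemma J_odd {n : ℕ} (hn : Odd n) : J ^ n = J := by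
  obtain ⟨k, rfl⟩ := hn
  rw [pow_add, pow_mul, pow_two, J_mul, one_pow, one_mul, pow_one]

lemma J_trace : J.trace = 0 := by
  simp [J, Matrix.trace, Fin.sum_univ_two]

lemma one_trace : (1 : Matrix (Fin 2) (Fin 2) ℤ).trace = 2 := by
  simp

variable {G M : Type} [Group G] [MulAction G M]

namespace SymplecticAction

variable (D : SymplecticAction G M)

/-- the canonical class is `2e + 2f` -/
lemma K_eq (hD : D.NotRational) : D.K 0 = 2 ∧ D.K 1 = 2 := by
  obtain ⟨a, ha⟩ := D.K_even 0
  obtain ⟨b, hb⟩ := D.K_even 1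
  have h := D.K_sq
  unfold dot at h
  have h1 : a * b = 1 := by
    rw [ha, hb] at h
    linarith
  rcases Int.eq_one_or_neg_one_of_mul_eq_one' h1 with ⟨h2, h3⟩ | ⟨h2, h3⟩
  · omega
  · exfalso
    have hp0 := D.ω_pos 0
    have hp1 := D.ω_pos 1
    have hD' : 0 < D.ω 0 * D.K 1 + D.ω 1 * D.K 0 := hD
    rw [ha, hb, h2, h3] at hD'
    push_cast at hD'
    linarith

lemma act_cases (hD : D.NotRational) (g : G) : D.act g = 1 ∨ D.act g = J := by
  obtain ⟨hK0, hK1⟩ := D.K_eq hD
  have e00 := D.act_dot g ![1, 0] ![1, 0]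
  have e11 := D.act_dot g ![0, 1] ![0, 1]
  have e01 := D.act_dot g ![1, 0] ![0, 1]
  have hK := D.act_K g
  have k0 := congrFun hK 0
  have k1 := congrFun hK 1
  simp only [Matrix.mulVec, dotProduct, Fin.sum_univ_two, hK0, hK1, dot, Matrix.cons_val_zero,
    Matrix.cons_val_one] at e00 e11 e01 k0 k1
  set a := D.act g 0 0 with ha
  set b := D.act g 0 1 with hb
  set c := D.act g 1 0 with hc
  set d := D.act g 1 1 with hd
  have h1 : a * c = 0 := by linarith
  have h2 : b * d = 0 := by linarith
  have h3 : a + b = 1 := by linarith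
  have h4 : c + d = 1 := by linarith
  rcases mul_eq_zero.mp h1 with h | h
  · right
    have hb1 : b = 1 := by omega
    have hd0 : d = 0 := by rw [hb1, one_mul] at h2; exact h2
    have hc1 : c = 1 := by omega
    ext i j
    fin_cases i <;> fin_cases j
    · exact h
    · exact hb1
    · exact hc1
    · exact hd0
  · left
    have hd1 : d = 1 := by omega
    have hb0 : b = 0 := by rw [hd1, mul_one] at h2; exact h2
    have ha1 : a = 1 := by omega
    ext i j
    fin_cases i <;> fin_cases j
    · exact ha1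
    · exact hb0
    · exact h
    · exact hd1

/-- an element of odd order acts trivially on the cohomology -/
lemma act_odd (hD : D.NotRational) {g : G} (h : Odd (orderOf g)) : D.act g = 1 := by
  rcases D.act_cases hD g with h1 | h1
  · exact h1
  · exfalso
    have h2 : D.act g ^ orderOf g = 1 := by rw [← map_pow, pow_orderOf_eq_one, map_one]
    rw [h1, J_odd h] at h2
    exact J_ne h2

/-- the canonical class is nonnegative on the surfaces of fixed points -/
lemma K_nonneg (hD : D.NotRational) {g : G} (hg : g ≠ 1) {S : Surface M}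
    (hS : S ∈ D.surfaces g) : 0 ≤ dot D.K S.cls := by
  obtain ⟨hK0, hK1⟩ := D.K_eq hD
  have h1 := D.adjunction g hg S hS
  have h2 := D.area g hg S hS
  have hp0 := D.ω_pos 0
  have hp1 := D.ω_pos 1
  unfold dot at h1 ⊢
  rw [hK0, hK1] at h1 ⊢
  set x := S.cls 0
  set y := S.cls 1
  by_contra hcon
  have h3 : x + y < 0 := by linarith
  have h4 : (x + 1) * (y + 1) = S.genus := by linarith
  have h5 : (0 : ℤ) ≤ (x + 1) * (y + 1) := by rw [h4]; positivity
  -- both factors are nonpositive or one of the classes is `(-1, -1)`, `(-1, 0)`, `(0, -1)`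
  have h6 : x ≤ 0 ∧ y ≤ 0 := by
    constructor
    · by_contra h
      have : y + 1 < 0 := by omega
      nlinarith
    · by_contra h
      have : x + 1 < 0 := by omega
      nlinarith
  have hx : (x : ℝ) ≤ 0 := by exact_mod_cast h6.1
  have hy : (y : ℝ) ≤ 0 := by exact_mod_cast h6.2
  nlinarith

lemma ne_one_of_order {g : G} {n : ℕ} (h : orderOf g = n) (hn : n ≠ 1) : g ≠ 1 := by
  rintro rfl
  rw [orderOf_one] at h
  exact hn h.symm

lemma lin_pow {g : G} {x : M} (hx : g • x = x) (n : ℕ) :
    D.lin (g ^ n) x = D.lin g x ^ n ∧ (g ^ n) • x = x := by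
  induction n with
  | zero => exact ⟨by rw [pow_zero, pow_zero, D.lin_one], by rw [pow_zero, one_smul]⟩
  | succ n ih =>
    refine ⟨?_, ?_⟩
    · rw [pow_succ, D.lin_mul _ _ _ ih.2 hx, ih.1, pow_succ]
    · rw [pow_succ, mul_smul, hx, ih.2]

lemma local_two (A : Matrix (Fin 2) (Fin 2) ℂ) (hA : A * A = 1) (h : (1 - A).det ≠ 0) :
    A = -1 := by
  have hu : IsUnit (1 - A) := by
    rw [Matrix.isUnit_iff_isUnit_det]; exact isUnit_iff_ne_zero.mpr h
  have h1 : (1 - A) * (1 + A) = 0 := by
    have : (1 - A) * (1 + A) = 1 - A * A := by noncomm_ring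
    rw [this, hA, sub_self]
  have h2 : 1 + A = 0 := by
    obtain ⟨u, hu⟩ := hu
    rw [← hu] at h1
    exact (Units.mul_right_eq_zero u).mp h1
  exact eq_neg_of_add_eq_zero_right h2

lemma lin_two {g : G} (hg : orderOf g = 2) {x : M} (hx : x ∈ D.iso g) : D.lin g x = -1 := by
  have hg1 := ne_one_of_order hg (by norm_num)
  obtain ⟨h1, h2⟩ := (D.mem_iso g hg1 x).mp hx
  refine local_two _ ?_ h2
  have h3 : g ^ 2 = 1 := by rw [← hg]; exact pow_orderOf_eq_one g
  rw [← pow_two, ← (D.lin_pow h1 2).1, h3, D.lin_one]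

lemma normal_two (ν : ℂ) (h1 : ν ^ 2 = 1) (h2 : ν ≠ 1) : -4 * ν / (1 - ν) ^ 2 = 1 := by
  have h3 : (ν - 1) * (ν + 1) = 0 := by linear_combination h1
  have h4 : ν = -1 := by
    rcases mul_eq_zero.mp h3 with h | h
    · exact absurd (sub_eq_zero.mp h) h2
    · linear_combination h
  rw [h4]; norm_num

/-- an involution acts trivially on the cohomology, it has exactly four fixed points and no
surface of fixed points -/
theorem involution (hD : D.NotRational) {g : G} (hg : orderOf g = 2) :
    D.act g = 1 ∧ D.surfaces g = [] ∧ (D.iso g).card = 4 := by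
  have hg1 := ne_one_of_order hg (by norm_num)
  have hL := D.lefschetz g hg1
  have hS := D.signature g hg1
  have h1 : ∑ x ∈ D.iso g, (1 + D.lin g x).det / (1 - D.lin g x).det = 0 := by
    refine Finset.sum_eq_zero fun x hx => ?_
    rw [D.lin_two hg hx, add_neg_cancel, Matrix.det_zero, zero_div]
  have h2 : ((D.surfaces g).map fun S =>
      ((dot S.cls S.cls : ℤ) : ℂ) * (-4 * S.normal / (1 - S.normal) ^ 2)).sum
      = ((((D.surfaces g).map fun S => dot S.cls S.cls).sum : ℤ) : ℂ) := by
    rw [Int.cast_list_sum, List.map_map]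
    congr 1
    refine List.map_congr_left fun S hS => ?_
    obtain ⟨h3, h4⟩ := D.normal_pow g hg1 S hS
    rw [hg] at h3
    rw [normal_two _ h3 h4, mul_one]
    rfl
  rw [h1, h2, zero_add] at hS
  have h3 : 2 - (D.act g).trace = ((D.surfaces g).map fun S => dot S.cls S.cls).sum := by
    exact_mod_cast hS
  have h4 : ((D.surfaces g).map fun S => 2 - 2 * (S.genus : ℤ)).sum
      = -((D.surfaces g).map fun S => dot S.cls S.cls).sum
        - ((D.surfaces g).map fun S => dot D.K S.cls).sum := by
    have : ∀ l : List (Surface M), (∀ S ∈ l, S ∈ D.surfaces g) →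
        (l.map fun S => 2 - 2 * (S.genus : ℤ)).sum
          = -(l.map fun S => dot S.cls S.cls).sum - (l.map fun S => dot D.K S.cls).sum := by
      intro l
      induction l with
      | nil => intro _; simp
      | cons S l ih =>
        intro hl
        have e := D.adjunction g hg1 S (hl S (by simp))
        have e' := ih fun T hT => hl T (by simp [hT])
        simp only [List.map_cons, List.sum_cons]
        rw [e']
        linarith
    exact this _ fun S hS => hS
  have h5 : 0 ≤ ((D.surfaces g).map fun S => dot D.K S.cls).sum := by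
    refine List.sum_nonneg ?_
    intro a ha
    obtain ⟨S, hS, rfl⟩ := List.mem_map.mp ha
    exact D.K_nonneg hD hg1 hS
  have h6 : (4 : ℤ) ≤ (D.iso g).card := by linarith
  have h7 : D.iso g ≠ ∅ := by
    intro h
    rw [h, Finset.card_empty] at h6
    norm_num at h6
  have h8 : D.surfaces g = [] := by
    rcases D.spin g hg with h | h
    · exact absurd h h7
    · exact h
  rw [h8] at h3 h4 hL
  simp only [List.map_nil, List.sum_nil] at h3 hL
  refine ⟨?_, h8, by omega⟩
  rcases D.act_cases hD g with h | h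
  · exact h
  · rw [h, J_trace] at h3
    norm_num at h3

end SymplecticAction

end Pool.Agent.H67.SQ
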