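import Mathlib
import Pool.Agent.H67.SQ.Circle

/-!
# Groups of odd order acting on `ℂ²` without eigenvalue one
-/

namespace Pool.Agent.H67.SQ

open Matrix Finset
open scoped commutatorElement

/-- no element different from one has the eigenvalue one -/
def IsFree {H : Type} [Group H] (ρ : H →* Matrix (Fin 2) (Fin 2) ℂ) : Prop :=
  ∀ h, h ≠ 1 → (1 - ρ h).det ≠ 0

lemma eig_line {N : Matrix (Fin 2) (Fin 2) ℂ} (hN : N ≠ 0) {v w : Fin 2 → ℂ} (hv : v ≠ 0)
    (h1 : N *ᵥ v = 0) (h2 : N *ᵥ w = 0) : ∃ μ : ℂ, w = μ • v := by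
  have hdet : v 0 * w 1 - v 1 * w 0 = 0 := by
    by_contra hne
    apply hN
    have a0 := congrFun h1 0
    have a1 := congrFun h1 1
    have b0 := congrFun h2 0
    have b1 := congrFun h2 1
    simp only [Matrix.mulVec, dotProduct, Fin.sum_univ_two, Pi.zero_apply] at a0 a1 b0 b1
    have e00 : N 0 0 * (v 0 * w 1 - v 1 * w 0) = 0 := by linear_combination w 1 * a0 - v 1 * b0
    have e01 : N 0 1 * (v 0 * w 1 - v 1 * w 0) = 0 := by linear_combination v 0 * b0 - w 0 * a0
    have e10 : N 1 0 * (v 0 * w 1 - v 1 * w 0) = 0 := by linear_combination w 1 * a1 - v 1 * b1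
    have e11 : N 1 1 * (v 0 * w 1 - v 1 * w 0) = 0 := by linear_combination v 0 * b1 - w 0 * a1
    ext i j
    fin_cases i <;> fin_cases j
    · exact (mul_eq_zero.mp e00).resolve_right hne
    · exact (mul_eq_zero.mp e01).resolve_right hne
    · exact (mul_eq_zero.mp e10).resolve_right hne
    · exact (mul_eq_zero.mp e11).resolve_right hne
  by_cases h0 : v 0 = 0
  · have hv1 : v 1 ≠ 0 := by
      intro h
      apply hv
      ext i
      fin_cases i
      · exact h0
      · exact h
    have hw0 : w 0 = 0 := by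
      rw [h0, zero_mul, zero_sub, neg_eq_zero] at hdet
      exact (mul_eq_zero.mp hdet).resolve_left hv1
    refine ⟨w 1 / v 1, ?_⟩
    ext i
    fin_cases i
    · simp [hw0, h0]
    · simp [div_mul_cancel₀ _ hv1]
  · refine ⟨w 0 / v 0, ?_⟩
    ext i
    fin_cases i
    · simp [div_mul_cancel₀ _ h0]
    · simp only [Fin.mk_one, Fin.isValue, Pi.smul_apply, smul_eq_mul]
      rw [div_mul_eq_mul_div, eq_div_iff h0]
      linear_combination hdet

lemma exists_eigenvector (A : Matrix (Fin 2) (Fin 2) ℂ) :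
    ∃ (c : ℂ) (v : Fin 2 → ℂ), v ≠ 0 ∧ A *ᵥ v = c • v := by
  obtain ⟨s, hs⟩ := IsAlgClosed.exists_pow_nat_eq (A.trace ^ 2 - 4 * A.det) (n := 2) (by norm_num)
  have hc : ((A.trace + s) / 2) ^ 2 - A.trace * ((A.trace + s) / 2) + A.det = 0 := by
    linear_combination (1 / 4 : ℂ) * hs
  set c := (A.trace + s) / 2
  have h1 : (c • (1 : Matrix (Fin 2) (Fin 2) ℂ) - A).det = 0 := by
    rw [← hc, Matrix.det_fin_two, Matrix.det_fin_two, Matrix.trace_fin_two]
    simp
    ring
  obtain ⟨v, hv0, hv⟩ := Matrix.exists_mulVec_eq_zero_iff.mpr h1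
  rw [Matrix.sub_mulVec, Matrix.smul_mulVec, Matrix.one_mulVec, sub_eq_zero] at hv
  exact ⟨c, v, hv0, hv.symm⟩

variable {H : Type} [Group H]

lemma cyclic_of_common [Finite H] (ρ : H →* Matrix (Fin 2) (Fin 2) ℂ) (hρ : IsFree ρ) {v : Fin 2 → ℂ}
    (hv : v ≠ 0) (h : ∀ y, ∃ μ : ℂ, ρ y *ᵥ v = μ • v) : IsCyclic H := by
  choose μ hμ using h
  have huniq : ∀ a b : ℂ, a • v = b • v → a = b := by
    intro a b hab
    have h1 : (a - b) • v = 0 := by rw [sub_smul, hab, sub_self]
    rcases smul_eq_zero.mp h1 with h | h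
    · exact sub_eq_zero.mp h
    · exact absurd h hv
  let χ : H →* ℂ :=
    { toFun := μ
      map_one' := by
        apply huniq
        rw [← hμ 1, map_one, Matrix.one_mulVec, one_smul]
      map_mul' := by
        intro x y
        apply huniq
        rw [← hμ, map_mul, ← Matrix.mulVec_mulVec, hμ y, Matrix.mulVec_smul, hμ x, smul_smul,
          mul_comm] }
  refine isCyclic_of_injective_ringHom χ ((injective_iff_map_eq_one χ).mpr fun y hy => ?_)
  by_contra hne
  apply hρ y hne
  refine Matrix.exists_mulVec_eq_zero_iff.mp ⟨v, hv, ?_⟩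
  have hy' : μ y = 1 := hy
  rw [Matrix.sub_mulVec, Matrix.one_mulVec, hμ y, hy', one_smul, sub_self]

lemma cyclic_of_central [Finite H] (ρ : H →* Matrix (Fin 2) (Fin 2) ℂ) (hρ : IsFree ρ) {a : H}
    (ha : ∀ y, a * y = y * a) (hs : ∀ c : ℂ, ρ a ≠ c • (1 : Matrix (Fin 2) (Fin 2) ℂ)) :
    IsCyclic H := by
  obtain ⟨c, v, hv, hc⟩ := exists_eigenvector (ρ a)
  refine cyclic_of_common ρ hρ hv fun y => ?_
  have hN : ρ a - c • (1 : Matrix (Fin 2) (Fin 2) ℂ) ≠ 0 := fun h => hs c (sub_eq_zero.mp h)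
  refine eig_line hN hv ?_ ?_
  · rw [Matrix.sub_mulVec, hc, Matrix.smul_mulVec, Matrix.one_mulVec, sub_self]
  · rw [Matrix.sub_mulVec, Matrix.smul_mulVec, Matrix.one_mulVec, Matrix.mulVec_mulVec,
      ← map_mul, ha y, map_mul, ← Matrix.mulVec_mulVec, hc, Matrix.mulVec_smul, sub_self]

lemma odd_order (hodd : Odd (Nat.card H)) (y : H) : Odd (orderOf y) :=
  hodd.of_dvd_nat (orderOf_dvd_natCard y)

lemma eq_one_of_sq (hodd : Odd (Nat.card H)) {a : H} (h : a * a = 1) : a = 1 := by
  have h1 := odd_order hodd a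
  have h2 : orderOf a ∣ 2 := orderOf_dvd_of_pow_eq_one (by rw [pow_two]; exact h)
  rcases (Nat.dvd_prime Nat.prime_two).mp h2 with h3 | h3
  · exact orderOf_eq_one_iff.mp h3
  · rw [h3] at h1
    exact absurd h1 (by decide)

/-- two commuting elements with the same characteristic polynomial `T² - tT + 1` -/
lemma eq_or_inv (ρ : H →* Matrix (Fin 2) (Fin 2) ℂ) (hρ : IsFree ρ) {a b : H}
    (hab : a * b = b * a) (htr : (ρ a).trace = (ρ b).trace) (hda : (ρ a).det = 1)
    (hdb : (ρ b).det = 1) : b = a ∨ b = a⁻¹ := by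
  by_contra hcon
  rw [not_or] at hcon
  have h1 : a⁻¹ * b ≠ 1 := fun h => hcon.1 (inv_mul_eq_one.mp h).symm
  have h2 : a * b ≠ 1 := fun h => hcon.2 (eq_inv_of_mul_eq_one_right h)
  have hA := cayley (ρ a)
  have hB := cayley (ρ b)
  rw [hda, one_smul] at hA
  rw [hdb, one_smul] at hB
  have hinv : ρ a⁻¹ * ρ a = 1 := by rw [← map_mul, inv_mul_cancel, map_one]
  have hsum : ρ a + ρ a⁻¹ = (ρ a).trace • (1 : Matrix (Fin 2) (Fin 2) ℂ) := by
    have h3 : ρ a⁻¹ * (ρ a * ρ a) = ρ a⁻¹ * ((ρ a).trace • ρ a - 1) := by rw [hA]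
    rw [← mul_assoc, hinv, one_mul, mul_sub, Matrix.mul_smul, hinv, mul_one] at h3
    exact eq_sub_iff_add_eq.mp h3
  have hprod : (1 - ρ (a⁻¹ * b)) * (1 - ρ (a * b)) = 0 := by
    have e1 : ρ (a⁻¹ * b) * ρ (a * b) = ρ b * ρ b := by
      rw [← map_mul, ← map_mul]
      congr 1
      rw [hab]
      calc a⁻¹ * b * (b * a) = a⁻¹ * (b * (b * a)) := by group
        _ = a⁻¹ * (b * (a * b)) := by rw [hab]
        _ = a⁻¹ * ((b * a) * b) := by group
        _ = a⁻¹ * ((a * b) * b) := by rw [hab]
        _ = b * b := by group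
    have e2 : ρ (a⁻¹ * b) + ρ (a * b) = (ρ a).trace • ρ b := by
      rw [map_mul, map_mul, ← add_mul, add_comm (ρ a⁻¹), hsum, Matrix.smul_mul, one_mul]
    have e3 : (1 - ρ (a⁻¹ * b)) * (1 - ρ (a * b))
        = 1 - (ρ (a⁻¹ * b) + ρ (a * b)) + ρ (a⁻¹ * b) * ρ (a * b) := by noncomm_ring
    rw [e3, e1, e2, hB, htr]
    abel
  have hdet := congrArg Matrix.det hprod
  rw [Matrix.det_mul, Matrix.det_zero] at hdet
  rcases mul_eq_zero.mp hdet with h | h
  · exact hρ _ h1 h
  · exact hρ _ h2 h

/-- the determinant is one on the commutator subgroup -/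
lemma det_commutator (ρ : H →* Matrix (Fin 2) (Fin 2) ℂ) {a : H} (ha : a ∈ commutator H) :
    (ρ a).det = 1 := by
  let δ : H →* ℂ := Matrix.detMonoidHom.comp ρ
  have h1 : commutator H ≤ (δ.toHomUnits).ker := Abelianization.commutator_subset_ker _
  have h2 : δ.toHomUnits a = 1 := h1 ha
  have h3 := congrArg Units.val h2
  rw [MonoidHom.coe_toHomUnits] at h3
  exact h3

/-- a solvable group of odd order which acts on `ℂ²` without eigenvalue one is cyclic -/
theorem cyclic_of_free [Finite H] (ρ : H →* Matrix (Fin 2) (Fin 2) ℂ) (hρ : IsFree ρ)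
    (hodd : Odd (Nat.card H)) (hsol : Group.IsSolvable H) : IsCyclic H := by
  by_cases hab : commutator H = ⊥
  · have hcomm : ∀ x y : H, x * y = y * x := by
      intro x y
      have h1 : ⁅x, y⁆ ∈ commutator H :=
        Subgroup.commutator_mem_commutator (Subgroup.mem_top x) (Subgroup.mem_top y)
      rw [hab, Subgroup.mem_bot] at h1
      exact commutatorElement_eq_one_iff_mul_comm.mp h1
    by_cases hs : ∃ a : H, ∀ c : ℂ, ρ a ≠ c • (1 : Matrix (Fin 2) (Fin 2) ℂ)
    · obtain ⟨a, ha⟩ := hs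
      exact cyclic_of_central ρ hρ (fun y => hcomm a y) ha
    · push Not at hs
      refine cyclic_of_common ρ hρ (v := ![1, 0]) ?_ fun y => ?_
      · intro h
        have := congrFun h 0
        simp at this
      · obtain ⟨c, hc⟩ := hs y
        exact ⟨c, by rw [hc, Matrix.smul_mulVec, Matrix.one_mulVec]⟩
  · obtain ⟨N, hN⟩ := hsol.solvable
    have hex : ∃ n, derivedSeries H n = ⊥ := ⟨N, hN⟩
    classical
    set n := Nat.find hex with hn
    have hn1 : derivedSeries H n = ⊥ := Nat.find_spec hex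
    have hn0 : n ≠ 0 := by
      intro h0
      rw [h0, derivedSeries_zero] at hn1
      apply hab
      rw [eq_bot_iff, ← hn1]
      exact le_top
    have hn2 : n ≠ 1 := by
      intro h0
      rw [h0, derivedSeries_one] at hn1
      exact hab hn1
    obtain ⟨m, hm⟩ : ∃ m, n = m + 2 := ⟨n - 2, by omega⟩
    have hne : derivedSeries H (m + 1) ≠ ⊥ := fun h => Nat.find_min hex (m := m + 1) (by omega) h
    rw [hm] at hn1
    have hle : derivedSeries H (m + 1) ≤ commutator H := by
      rw [← derivedSeries_one]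
      exact derivedSeries_antitone H (by omega)
    obtain ⟨a, ha, ha1⟩ := (Subgroup.bot_or_exists_ne_one (derivedSeries H (m + 1))).resolve_left hne
    have hnorm : (derivedSeries H (m + 1)).Normal := derivedSeries_normal H (m + 1)
    have hcentral : ∀ y, a * y = y * a := by
      intro y
      set b := y⁻¹ * a * y with hb
      have hbmem : b ∈ derivedSeries H (m + 1) := by
        have := hnorm.conj_mem a ha y⁻¹
        rwa [inv_inv] at this
      have hcm : a * b = b * a := by
        have h1 : ⁅a, b⁆ ∈ derivedSeries H (m + 2) := by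
          rw [derivedSeries_succ]
          exact Subgroup.commutator_mem_commutator ha hbmem
        rw [hn1, Subgroup.mem_bot] at h1
        exact commutatorElement_eq_one_iff_mul_comm.mp h1
      have htr : (ρ a).trace = (ρ b).trace := by
        rw [hb, map_mul, map_mul, Matrix.trace_mul_comm, ← mul_assoc, ← map_mul,
          mul_inv_cancel, map_one, one_mul]
      have hy : y * b = a * y := by rw [hb]; group
      rcases eq_or_inv ρ hρ hcm htr (det_commutator ρ (hle ha)) (det_commutator ρ (hle hbmem))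
        with h | h
      · rw [h] at hy; exact hy.symm
      · rw [h] at hy
        -- `y` inverts `a`, so `y ^ 2` commutes with `a`
        have h2 : Commute a (y ^ 2) := by
          have e1 : a = y * a⁻¹ * y⁻¹ := by rw [hy]; group
          have e2 : a⁻¹ = y * a * y⁻¹ := by
            conv_lhs => rw [e1]
            group
          change a * y ^ 2 = y ^ 2 * a
          have e3 : a * y = y * a⁻¹ := hy.symm
          have e4 : a⁻¹ * y = y * a := by rw [e2]; group
          rw [pow_two, ← mul_assoc, e3, mul_assoc, e4, ← mul_assoc]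
        have hcop : Nat.Coprime 2 (orderOf y) := by
          rw [Nat.coprime_two_left]
          exact odd_order hodd y
        obtain ⟨k, hk⟩ := exists_pow_eq_self_of_coprime hcop
        have h3 : Commute a ((y ^ 2) ^ k) := h2.pow_right k
        rw [hk] at h3
        exact h3
    refine cyclic_of_central ρ hρ hcentral fun c hc => ?_
    have hdet := det_commutator ρ (hle ha)
    rw [hc, Matrix.det_fin_two] at hdet
    simp at hdet
    have h1 : ρ (a * a) = 1 := by
      rw [map_mul, hc, Matrix.smul_mul, one_mul, smul_smul, hdet, one_smul]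
    have h2 : a * a = 1 := by
      by_contra hne1
      apply hρ _ hne1
      rw [h1, sub_self, Matrix.det_zero]
    exact ha1 (eq_one_of_sq hodd h2)

end Pool.Agent.H67.SQ
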