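import Mathlib
import Pool.Agent.H67.SQ.Core
import Pool.Agent.H67.SQ.Circle

/-!
# Elements of odd prime order have isolated fixed points only
-/

namespace Pool.Agent.H67.SQ

open Matrix Finset

variable {G M : Type} [Group G] [MulAction G M]

namespace SymplecticAction

variable (D : SymplecticAction G M)

lemma pow_ne_one {g : G} (hg : g ≠ 1) {j : ℕ} (hj : j.Coprime (orderOf g)) : g ^ j ≠ 1 := by
  intro h
  apply hg
  have h1 : orderOf g ∣ j := orderOf_dvd_of_pow_eq_one h
  have h2 : orderOf g = 1 := by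
    have := Nat.eq_one_of_dvd_coprimes hj h1 (dvd_refl _)
    exact this
  exact orderOf_eq_one_iff.mp h2

lemma iso_pow {g : G} (hg : g ≠ 1) {j : ℕ} (hj : j.Coprime (orderOf g)) :
    D.iso (g ^ j) = D.iso g := by
  have hgj := pow_ne_one hg hj
  have hfix : ∀ x : M, (g ^ j) • x = x ↔ g • x = x := by
    intro x
    constructor
    · intro h
      obtain ⟨m, hm⟩ := exists_pow_eq_self_of_coprime hj
      have := (D.lin_pow h m).2
      rwa [hm] at this
    · intro h
      exact (D.lin_pow h j).2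
  have hsurf : ∀ x : M, (∃ S ∈ D.surfaces (g ^ j), x ∈ S.carrier) ↔
      ∃ S ∈ D.surfaces g, x ∈ S.carrier := by
    intro x
    rw [D.surfaces_pow g hg j hj]
    constructor
    · rintro ⟨S, hS, hx⟩
      obtain ⟨T, hT, rfl⟩ := List.mem_map.mp hS
      exact ⟨T, hT, hx⟩
    · rintro ⟨S, hS, hx⟩
      exact ⟨S.pow j, List.mem_map.mpr ⟨S, hS, rfl⟩, hx⟩
  ext x
  rw [D.mem_iso _ hgj, D.mem_iso _ hg]
  have h1 := D.mem_surfaces _ hgj x
  have h2 := D.mem_surfaces _ hg x
  rw [hsurf x] at h1
  constructor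
  · rintro ⟨h3, h4⟩
    refine ⟨(hfix x).mp h3, fun h5 => h4 ?_⟩
    exact (h1.mp (h2.mpr ⟨(hfix x).mp h3, h5⟩)).2
  · rintro ⟨h3, h4⟩
    refine ⟨(hfix x).mpr h3, fun h5 => h4 ?_⟩
    exact (h2.mp (h1.mpr ⟨(hfix x).mpr h3, h5⟩)).2

/-- the classes of the surfaces fixed by an element of odd prime order -/
lemma class_cases (hD : D.NotRational) {g : G} (hp : (orderOf g).Prime) (h1 : D.act g = 1)
    {S : Surface M} (hS : S ∈ D.surfaces g) :
    S.genus = 0 ∧ ((S.cls 0 = -1 ∧ 1 ≤ S.cls 1) ∨ (1 ≤ S.cls 0 ∧ S.cls 1 = -1)) := by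
  have hg := ne_one_of_order (g := g) rfl hp.one_lt.ne'
  obtain ⟨hK0, hK1⟩ := D.K_eq hD
  have hgen := D.edmonds g hp h1 S hS
  have hadj := D.adjunction g hg S hS
  have harea := D.area g hg S hS
  have hp0 := D.ω_pos 0
  have hp1 := D.ω_pos 1
  refine ⟨hgen, ?_⟩
  unfold dot at hadj
  rw [hK0, hK1, hgen] at hadj
  set x := S.cls 0
  set y := S.cls 1
  have h3 : (x + 1) * (y + 1) = 0 := by push_cast at hadj; linarith
  rcases mul_eq_zero.mp h3 with h | h
  · left
    have hx : x = -1 := by omega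
    refine ⟨hx, ?_⟩
    by_contra hy
    have hy' : (y : ℝ) ≤ 0 := by exact_mod_cast (by omega : y ≤ 0)
    rw [hx] at harea
    push_cast at harea
    nlinarith
  · right
    have hy : y = -1 := by omega
    refine ⟨?_, hy⟩
    by_contra hx
    have hx' : (x : ℝ) ≤ 0 := by exact_mod_cast (by omega : x ≤ 0)
    rw [hy] at harea
    push_cast at harea
    nlinarith

/-- at most one surface is fixed by an element of odd prime order -/
lemma at_most_one (hD : D.NotRational) {g : G} (hp : (orderOf g).Prime) (h1 : D.act g = 1) :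
    (D.surfaces g).length ≤ 1 := by
  have hg := ne_one_of_order (g := g) rfl hp.one_lt.ne'
  by_contra hlen
  rcases hl : D.surfaces g with _ | ⟨S, _ | ⟨T, l⟩⟩
  · rw [hl] at hlen; simp at hlen
  · rw [hl] at hlen; simp at hlen
  · have hdis := D.disjoint g hg
    rw [hl] at hdis
    have h2 : dot S.cls T.cls = 0 := by
      rw [List.pairwise_cons] at hdis
      exact hdis.1 T (by simp)
    obtain ⟨_, hS⟩ := D.class_cases hD hp h1 (S := S) (by rw [hl]; simp)
    obtain ⟨_, hT⟩ := D.class_cases hD hp h1 (S := T) (by rw [hl]; simp)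
    unfold dot at h2
    rcases hS with ⟨a, b⟩ | ⟨a, b⟩ <;> rcases hT with ⟨c, d⟩ | ⟨c, d⟩
    · rw [a, c] at h2; omega
    · rw [a, d] at h2
      nlinarith
    · rw [b, c] at h2
      nlinarith
    · rw [b, d] at h2; omega

/-- an element of odd prime order acts trivially on the cohomology, it has exactly four fixed
points and no surface of fixed points -/
theorem odd_prime (hD : D.NotRational) {g : G} (hp : (orderOf g).Prime) (hodd : orderOf g ≠ 2) :
    D.act g = 1 ∧ D.surfaces g = [] ∧ (D.iso g).card = 4 := by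
  have hg := ne_one_of_order (g := g) rfl hp.one_lt.ne'
  have hodd' : Odd (orderOf g) := hp.odd_of_ne_two hodd
  have h1 := D.act_odd hD hodd'
  have hL := D.lefschetz g hg
  rw [h1, one_trace] at hL
  have key : D.surfaces g = [] := by
    rcases hl : D.surfaces g with _ | ⟨S, l⟩
    · rfl
    · exfalso
      have hlen := D.at_most_one hD hp h1
      rw [hl] at hlen
      have hl0 : l = [] := by
        rcases l with _ | ⟨T, l⟩
        · rfl
        · simp at hlen
      subst hl0
      obtain ⟨hgen, hcls⟩ := D.class_cases hD hp h1 (S := S) (by rw [hl]; simp)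
      rw [hl] at hL
      simp only [List.map_cons, List.map_nil, List.sum_cons, List.sum_nil, hgen] at hL
      have hcard : (D.iso g).card = 2 := by push_cast at hL; omega
      have hd : dot S.cls S.cls ≤ -2 := by
        unfold dot
        rcases hcls with ⟨a, b⟩ | ⟨a, b⟩
        · rw [a]; omega
        · rw [b]; omega
      set p := orderOf g with hpdef
      obtain ⟨hν1, hν2⟩ := D.normal_pow g hg S (by rw [hl]; simp)
      rw [← hpdef] at hν1
      -- the eigenvalues
      have hex : ∀ x : M, ∃ α β : ℂ, x ∈ D.iso g → (α ^ p = 1 ∧ α ≠ 1 ∧ β ^ p = 1 ∧ β ≠ 1 ∧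
          ∀ j : ℕ, (1 + D.lin g x ^ j).det = (1 + α ^ j) * (1 + β ^ j) ∧
            (1 - D.lin g x ^ j).det = (1 - α ^ j) * (1 - β ^ j)) := by
        intro x
        by_cases hx : x ∈ D.iso g
        · obtain ⟨hx1, hx2⟩ := (D.mem_iso g hg x).mp hx
          have hA : D.lin g x ^ p = 1 := by
            rw [← (D.lin_pow hx1 p).1, hpdef, pow_orderOf_eq_one, D.lin_one]
          obtain ⟨α, β, h⟩ := exists_eig _ hA hx2
          exact ⟨α, β, fun _ => h⟩
        · exact ⟨1, 1, fun h => absurd h hx⟩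
      choose α β hαβ using hex
      have hpow : ∀ (w : ℂ), w ^ p = 1 → w ≠ 1 → ∀ j ∈ Ico 1 p, w ^ j ≠ 1 ∧ (w ^ j) ^ p = 1 := by
        intro w hw1 hw2 j hj
        rw [Finset.mem_Ico] at hj
        refine ⟨fun h => ?_, by rw [← pow_mul, mul_comm, pow_mul, hw1, one_pow]⟩
        have : Fact p.Prime := ⟨hp⟩
        have hord : orderOf w = p := orderOf_eq_prime hw1 hw2
        have h3 := orderOf_dvd_of_pow_eq_one h
        rw [hord] at h3
        have := Nat.le_of_dvd (by omega) h3
        omega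
      -- the signature theorem for the powers
      have hsig : ∀ j ∈ Ico 1 p, (dot S.cls S.cls : ℝ) * (1 + ct (S.normal ^ j) ^ 2)
          = ∑ x ∈ D.iso g, ct (α x ^ j) * ct (β x ^ j) := by
        intro j hj
        have hj' := Finset.mem_Ico.mp hj
        have hcop : j.Coprime (orderOf g) := by
          rw [← hpdef]
          exact (Nat.coprime_of_lt_prime (by omega) hj'.2 hp).symm
        have hgj := pow_ne_one hg hcop
        have hact : D.act (g ^ j) = 1 := by rw [map_pow, h1, one_pow]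
        have e := D.signature (g ^ j) hgj
        rw [hact, one_trace, D.iso_pow hg hcop, D.surfaces_pow g hg j hcop, hl] at e
        simp only [List.map_cons, List.map_nil, List.sum_cons, List.sum_nil, add_zero, sub_self,
          Int.cast_zero] at e
        have e1 : -4 * (S.pow j).normal / (1 - (S.pow j).normal) ^ 2
            = ((1 + ct (S.normal ^ j) ^ 2 : ℝ) : ℂ) := by
          have := hpow _ hν1 hν2 j hj
          exact csc_spec hp.ne_zero this.2 this.1
        have e2 : ∑ x ∈ D.iso g, (1 + D.lin (g ^ j) x).det / (1 - D.lin (g ^ j) x).det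
            = ((-∑ x ∈ D.iso g, ct (α x ^ j) * ct (β x ^ j) : ℝ) : ℂ) := by
          rw [Complex.ofReal_neg, Complex.ofReal_sum, ← Finset.sum_neg_distrib]
          refine Finset.sum_congr rfl fun x hx => ?_
          obtain ⟨hx1, hx2⟩ := (D.mem_iso g hg x).mp hx
          obtain ⟨a1, a2, b1, b2, hdet⟩ := hαβ x hx
          rw [(D.lin_pow hx1 j).1, (hdet j).1, (hdet j).2, mul_div_mul_comm,
            ct_spec hp.ne_zero (hpow _ a1 a2 j hj).2 (hpow _ a1 a2 j hj).1,
            ct_spec hp.ne_zero (hpow _ b1 b2 j hj).2 (hpow _ b1 b2 j hj).1]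
          push_cast
          linear_combination (ct (α x ^ j) : ℂ) * (ct (β x ^ j) : ℂ) * Complex.I_sq
        rw [e2] at e
        change (0 : ℂ) = _ + ((dot S.cls S.cls : ℤ) : ℂ)
          * (-4 * (S.pow j).normal / (1 - (S.pow j).normal) ^ 2) at e
        rw [e1] at e
        have e3 : (0 : ℝ) = -(∑ x ∈ D.iso g, ct (α x ^ j) * ct (β x ^ j))
            + (dot S.cls S.cls : ℝ) * (1 + ct (S.normal ^ j) ^ 2) := by
          exact_mod_cast e
        linarith
      have hsum := Finset.sum_congr rfl hsig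
      rw [Finset.sum_comm, ← Finset.mul_sum, Finset.sum_add_distrib,
        sum_roots hp hν1 hν2 (fun w => ct w ^ 2)] at hsum
      set Q := ∑ w ∈ (Polynomial.nthRootsFinset p (1 : ℂ)).erase 1, ct w ^ 2 with hQ
      have hQ0 : 0 ≤ Q := Finset.sum_nonneg fun _ _ => sq_nonneg _
      have hlow : -(2 * Q) ≤ ∑ x ∈ D.iso g, ∑ j ∈ Ico 1 p, ct (α x ^ j) * ct (β x ^ j) := by
        have : ∀ x ∈ D.iso g, -Q ≤ ∑ j ∈ Ico 1 p, ct (α x ^ j) * ct (β x ^ j) := by
          intro x hx
          obtain ⟨a1, a2, b1, b2, _⟩ := hαβ x hx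
          have q1 := sum_roots hp a1 a2 (fun w => ct w ^ 2)
          have q2 := sum_roots hp b1 b2 (fun w => ct w ^ 2)
          rw [← hQ] at q1 q2
          have q3 : ∑ j ∈ Ico 1 p, (ct (α x ^ j) ^ 2 + ct (β x ^ j) ^ 2) = 2 * Q := by
            rw [Finset.sum_add_distrib, q1, q2]; ring
          have q4 : 0 ≤ ∑ j ∈ Ico 1 p, (ct (α x ^ j) + ct (β x ^ j)) ^ 2 :=
            Finset.sum_nonneg fun _ _ => sq_nonneg _
          have q5 : ∑ j ∈ Ico 1 p, (ct (α x ^ j) + ct (β x ^ j)) ^ 2
              = ∑ j ∈ Ico 1 p, (ct (α x ^ j) ^ 2 + ct (β x ^ j) ^ 2)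
                + 2 * ∑ j ∈ Ico 1 p, ct (α x ^ j) * ct (β x ^ j) := by
            rw [Finset.mul_sum, ← Finset.sum_add_distrib]
            exact Finset.sum_congr rfl fun _ _ => by ring
          rw [q5, q3] at q4
          linarith
        calc -(2 * Q) = ∑ x ∈ D.iso g, -Q := by
              rw [Finset.sum_const, hcard, nsmul_eq_mul]; push_cast; ring
          _ ≤ _ := Finset.sum_le_sum this
      rw [← hsum] at hlow
      have hone : ∑ j ∈ Ico 1 p, (1 : ℝ) = p - 1 := by
        rw [Finset.sum_const, Nat.card_Ico, nsmul_eq_mul, mul_one,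
          Nat.cast_sub hp.one_lt.le, Nat.cast_one]
      rw [hone] at hlow
      have hp1 : (1 : ℝ) < p := by exact_mod_cast hp.one_lt
      have hd' : (dot S.cls S.cls : ℝ) ≤ -2 := by exact_mod_cast hd
      nlinarith
  refine ⟨h1, key, ?_⟩
  rw [key] at hL
  simp only [List.map_nil, List.sum_nil] at hL
  omega

end SymplecticAction

end Pool.Agent.H67.SQ
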