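import Mathlib
import Pool.Agent.H67.SQ.Odd
import Pool.Agent.H67.SQ.Free

/-!
# Arbitrary elements and finite groups
-/

namespace Pool.Agent.H67.SQ

open Matrix Finset
open scoped commutatorElement

/-- a group of odd order which acts on four points has a fixed point -/
lemma fixed_of_four {H α : Type} [Group H] [Finite H] [MulAction H α] (hodd : Odd (Nat.card H))
    (hα : Nat.card α = 4) : ∃ x : α, ∀ h : H, h • x = x := by
  have hfin : Finite α := Nat.finite_of_card_ne_zero (by rw [hα]; norm_num)
  by_contra hcon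
  push Not at hcon
  have h3 : ∀ x : α, Nat.card (MulAction.orbit H x) = 3 := by
    intro x
    have e1 : (MulAction.stabilizer H x).index = (MulAction.orbit H x).ncard :=
      MulAction.index_stabilizer H x
    have e2 : (MulAction.stabilizer H x).index ∣ Nat.card H := Subgroup.index_dvd_card _
    rw [e1] at e2
    have e3 : Odd (MulAction.orbit H x).ncard := hodd.of_dvd_nat e2
    have e4 : (MulAction.orbit H x).ncard ≤ 4 := by
      rw [← hα, ← Set.ncard_univ]
      exact Set.ncard_le_ncard (Set.subset_univ _)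
    have e5 : (MulAction.orbit H x).ncard ≠ 1 := by
      intro h1
      obtain ⟨y, hy⟩ := Set.ncard_eq_one.mp h1
      obtain ⟨h, hh⟩ := hcon x
      have m1 : x ∈ MulAction.orbit H x := MulAction.mem_orbit_self x
      have m2 : h • x ∈ MulAction.orbit H x := MulAction.mem_orbit x h
      rw [hy, Set.mem_singleton_iff] at m1 m2
      exact hh (m2.trans m1.symm)
    rw [Nat.card_coe_set_eq]
    obtain ⟨k, hk⟩ := e3
    omega
  have e := Nat.card_congr (MulAction.selfEquivSigmaOrbits H α)
  classical
  have : Fintype (Quotient (MulAction.orbitRel H α)) := Fintype.ofFinite _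
  rw [hα, Nat.card_sigma, Finset.sum_congr rfl fun x _ => h3 _, Finset.sum_const,
    smul_eq_mul] at e
  omega

variable {G M : Type} [Group G] [MulAction G M]

lemma zpow_fix {g : G} {x : M} (h : g • x = x) (k : ℤ) : (g ^ k) • x = x :=
  Subgroup.zpow_mem (MulAction.stabilizer G x) h k

namespace SymplecticAction

variable (D : SymplecticAction G M)

lemma prime_order (hD : D.NotRational) {g : G} (hp : (orderOf g).Prime) :
    D.act g = 1 ∧ D.surfaces g = [] ∧ (D.iso g).card = 4 := by
  by_cases h : orderOf g = 2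
  · exact D.involution hD h
  · exact D.odd_prime hD hp h

/-- there are no surfaces of fixed points -/
theorem no_surface [Finite G] (hD : D.NotRational) {g : G} (hg : g ≠ 1) :
    D.surfaces g = [] := by
  rcases hl : D.surfaces g with _ | ⟨S, l⟩
  · rfl
  · exfalso
    have hS : S ∈ D.surfaces g := by rw [hl]; simp
    obtain ⟨x, hx⟩ := D.nonempty g hg S hS
    obtain ⟨h1, h2⟩ := (D.mem_surfaces g hg x).mp ⟨S, hS, hx⟩
    have hn0 : 0 < orderOf g := orderOf_pos g
    have hn1 : orderOf g ≠ 1 := fun h => hg (orderOf_eq_one_iff.mp h)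
    obtain ⟨p, hp, k, hk⟩ := Nat.exists_prime_and_dvd hn1
    have hk0 : k ≠ 0 := by
      rintro rfl
      omega
    have hord : orderOf (g ^ k) = p := by
      rw [orderOf_pow_of_dvd hk0 (Dvd.intro_left p hk.symm), hk,
        Nat.mul_div_cancel _ (Nat.pos_of_ne_zero hk0)]
    have h3 := D.prime_order hD (g := g ^ k) (by rw [hord]; exact hp)
    have hne : g ^ k ≠ 1 := ne_one_of_order hord hp.one_lt.ne'
    have h4 : (1 - D.lin (g ^ k) x).det = 0 := by
      rw [(D.lin_pow h1 k).1, ← mul_neg_geom_sum, Matrix.det_mul, h2, zero_mul]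
    obtain ⟨T, hT, _⟩ := (D.mem_surfaces _ hne x).mpr ⟨(D.lin_pow h1 k).2, h4⟩
    rw [h3.2.1] at hT
    simp at hT

/-- the differential at a fixed point has no eigenvalue one -/
lemma free_at [Finite G] (hD : D.NotRational) {g : G} (hg : g ≠ 1) {x : M} (hx : g • x = x) :
    (1 - D.lin g x).det ≠ 0 := by
  intro h
  obtain ⟨T, hT, _⟩ := (D.mem_surfaces g hg x).mpr ⟨hx, h⟩
  rw [D.no_surface hD hg] at hT
  simp at hT

lemma mem_iso_iff [Finite G] (hD : D.NotRational) {g : G} (hg : g ≠ 1) (x : M) :
    x ∈ D.iso g ↔ g • x = x := by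
  rw [D.mem_iso g hg x]
  exact ⟨fun h => h.1, fun h => ⟨h, D.free_at hD hg h⟩⟩

lemma card_iso [Finite G] (hD : D.NotRational) {g : G} (hg : g ≠ 1) :
    (D.act g = 1 → (D.iso g).card = 4) ∧ (D.act g ≠ 1 → (D.iso g).card = 2) := by
  have hL := D.lefschetz g hg
  rw [D.no_surface hD hg] at hL
  simp only [List.map_nil, List.sum_nil, add_zero] at hL
  constructor
  · intro h
    rw [h, one_trace] at hL
    omega
  · intro h
    rw [(D.act_cases hD g).resolve_left h, J_trace] at hL
    omega

lemma fixedBy_eq [Finite G] (hD : D.NotRational) {g : G} (hg : g ≠ 1) :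
    MulAction.fixedBy M g = (D.iso g : Set M) := by
  ext x
  rw [MulAction.mem_fixedBy, Finset.mem_coe, D.mem_iso_iff hD hg]

/-- an element acting nontrivially on the cohomology has order divisible by four -/
theorem four_dvd [Finite G] (hD : D.NotRational) {g : G} (h : D.act g ≠ 1) :
    4 ∣ orderOf g := by
  have hJ := (D.act_cases hD g).resolve_left h
  have heven : ¬ Odd (orderOf g) := fun ho => h (D.act_odd hD ho)
  rw [Nat.not_odd_iff_even] at heven
  obtain ⟨m, hm⟩ := heven
  have hpos : 0 < orderOf g := orderOf_pos g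
  have hm0 : m ≠ 0 := by omega
  rcases Nat.even_or_odd m with hme | hmo
  · obtain ⟨k, hk⟩ := hme
    exact ⟨k, by omega⟩
  · exfalso
    have hord : orderOf (g ^ m) = 2 := by
      rw [orderOf_pow_of_dvd hm0 ⟨2, by omega⟩, hm, ← two_mul,
        Nat.mul_div_cancel _ (Nat.pos_of_ne_zero hm0)]
    have h1 := (D.involution hD hord).1
    rw [map_pow, hJ, J_odd hmo] at h1
    exact J_ne h1

/-- two involutions with a common fixed point are equal -/
theorem involution_unique [Finite G] (hD : D.NotRational) {g h : G} (hg : orderOf g = 2)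
    (hh : orderOf h = 2) {x : M} (hgx : g • x = x) (hhx : h • x = x) : g = h := by
  have hg1 := ne_one_of_order hg (by norm_num)
  have hh1 := ne_one_of_order hh (by norm_num)
  have e1 := D.lin_two hg ((D.mem_iso_iff hD hg1 x).mpr hgx)
  have e2 := D.lin_two hh ((D.mem_iso_iff hD hh1 x).mpr hhx)
  have e3 : g * h = 1 := by
    by_contra hne
    apply D.free_at hD hne (x := x) (by rw [mul_smul, hhx, hgx])
    rw [D.lin_mul g h x hgx hhx, e1, e2, neg_mul_neg, one_mul, sub_self, Matrix.det_zero]
  have e4 : h * h = 1 := by rw [← pow_two, ← hh]; exact pow_orderOf_eq_one h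
  exact mul_right_cancel (e3.trans e4.symm)

/-- the representation of a group which fixes a point -/
def rep {H : Type} [Group H] (f : H →* G) {x : M} (hx : ∀ h, f h • x = x) :
    H →* Matrix (Fin 2) (Fin 2) ℂ where
  toFun h := D.lin (f h) x
  map_one' := by rw [map_one, D.lin_one]
  map_mul' a b := by rw [map_mul, D.lin_mul _ _ _ (hx a) (hx b)]

lemma rep_free [Finite G] (hD : D.NotRational) {H : Type} [Group H] (f : H →* G)
    (hf : Function.Injective f) {x : M} (hx : ∀ h, f h • x = x) : IsFree (D.rep f hx) := by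
  intro h hh
  have h1 : f h ≠ 1 := fun h1 => hh ((injective_iff_map_eq_one f).mp hf h h1)
  exact D.free_at hD h1 (hx h)

/-- a group of odd order with a normal cyclic subgroup has a fixed point -/
lemma exists_fixed [Finite G] (hD : D.NotRational) {H : Type} [Group H] [Finite H] (f : H →* G)
    (hf : Function.Injective f) (hodd : Odd (Nat.card H)) {a : H} (ha : a ≠ 1)
    (hn : ∀ y, y⁻¹ * a * y ∈ Subgroup.zpowers a) : ∃ x : M, ∀ h, f h • x = x := by
  have ha1 : f a ≠ 1 := fun h1 => ha ((injective_iff_map_eq_one f).mp hf a h1)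
  have hact : D.act (f a) = 1 := by
    apply D.act_odd hD
    rw [orderOf_injective f hf]
    exact odd_order hodd a
  have hcard := (D.card_iso hD ha1).1 hact
  have hinv : ∀ (y : H) (x : M), x ∈ D.iso (f a) → f y • x ∈ D.iso (f a) := by
    intro y x hx
    rw [D.mem_iso_iff hD ha1] at hx ⊢
    obtain ⟨k, hk⟩ := Subgroup.mem_zpowers_iff.mp (hn y)
    have e1 : f (y⁻¹ * a * y) • x = x := by
      rw [← hk, map_zpow]
      exact zpow_fix hx k
    rw [← mul_smul, ← map_mul]
    have e2 : a * y = y * (y⁻¹ * a * y) := by group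
    rw [e2, map_mul, mul_smul, e1]
  let action : MulAction H {x // x ∈ D.iso (f a)} :=
    { smul := fun y x => ⟨f y • (x : M), hinv y x x.2⟩
      one_smul := by
        rintro ⟨x, hx⟩
        apply Subtype.ext
        change f 1 • x = x
        rw [map_one, one_smul]
      mul_smul := by
        rintro y z ⟨x, hx⟩
        apply Subtype.ext
        change f (y * z) • x = f y • f z • x
        rw [map_mul, mul_smul] }
  obtain ⟨x, hx⟩ := fixed_of_four (H := H) (α := {x // x ∈ D.iso (f a)}) hodd
    (by rw [Nat.card_eq_fintype_card, Fintype.card_coe, hcard])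
  exact ⟨x, fun h => congrArg Subtype.val (hx h)⟩

lemma cyclic_of_pGroup [Finite G] (hD : D.NotRational) {H : Type} [Group H] [Finite H]
    (f : H →* G) (hf : Function.Injective f) (hodd : Odd (Nat.card H)) {p : ℕ} [Fact p.Prime]
    (hH : IsPGroup p H) : IsCyclic H := by
  rcases subsingleton_or_nontrivial H with hs | hs
  · exact isCyclic_of_subsingleton
  · have hc := hH.center_nontrivial
    obtain ⟨a, ha⟩ := exists_ne (1 : Subgroup.center H)
    have ha' : (a : H) ≠ 1 := fun h => ha (Subtype.ext h)
    have hcomm := Subgroup.mem_center_iff.mp a.2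
    obtain ⟨x, hx⟩ := D.exists_fixed hD f hf hodd ha' (fun y => by
      rw [mul_assoc, ← hcomm y, inv_mul_cancel_left]
      exact Subgroup.mem_zpowers _)
    have := hH.isNilpotent
    exact cyclic_of_free (D.rep f hx) (D.rep_free hD f hf hx) hodd inferInstance

/-- groups of odd order are cyclic -/
theorem cyclic_of_odd [Finite G] (hD : D.NotRational) {H : Type} [Group H] [Finite H]
    (f : H →* G) (hf : Function.Injective f) (hodd : Odd (Nat.card H)) : IsCyclic H := by
  have hZ : IsZGroup H := by
    refine ⟨fun p hp Q => ?_⟩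
    have : Fact p.Prime := ⟨hp⟩
    exact D.cyclic_of_pGroup hD (f.comp Q.toSubgroup.subtype)
      (hf.comp Q.toSubgroup.subtype_injective)
      (hodd.of_dvd_nat (Subgroup.card_subgroup_dvd_card _)) Q.isPGroup'
  by_cases hab : commutator H = ⊥
  · have hcomm : ∀ x y : H, x * y = y * x := by
      intro x y
      have h1 : ⁅x, y⁆ ∈ commutator H :=
        Subgroup.commutator_mem_commutator (Subgroup.mem_top x) (Subgroup.mem_top y)
      rw [hab, Subgroup.mem_bot] at h1
      exact commutatorElement_eq_one_iff_mul_comm.mp h1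
    let hG' : CommGroup H := { (inferInstance : Group H) with mul_comm := hcomm }
    infer_instance
  · have := IsZGroup.isCyclic_commutator H
    obtain ⟨a, ha⟩ := IsCyclic.exists_generator (α := commutator H)
    have ha1 : (a : H) ≠ 1 := by
      intro h
      apply hab
      rw [eq_bot_iff]
      intro y hy
      obtain ⟨k, hk⟩ := Subgroup.mem_zpowers_iff.mp (ha ⟨y, hy⟩)
      have hk' := congrArg Subtype.val hk
      rw [Subgroup.coe_zpow, h, _root_.one_zpow] at hk'
      rw [Subgroup.mem_bot]
      exact hk'.symm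
    obtain ⟨x, hx⟩ := D.exists_fixed hD f hf hodd ha1 (fun y => by
      have hy : y⁻¹ * (a : H) * y ∈ commutator H := by
        have := (inferInstance : (commutator H).Normal).conj_mem a a.2 y⁻¹
        rwa [inv_inv] at this
      obtain ⟨k, hk⟩ := Subgroup.mem_zpowers_iff.mp (ha ⟨_, hy⟩)
      have hk' := congrArg Subtype.val hk
      rw [Subgroup.coe_zpow] at hk'
      exact Subgroup.mem_zpowers_iff.mpr ⟨k, hk'⟩)
    exact cyclic_of_free (D.rep f hx) (D.rep_free hD f hf hx) hodd inferInstance

/-- a nontrivial group of odd order has exactly four fixed points -/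
theorem four_fixed [Finite G] (hD : D.NotRational) (P : Subgroup G) (hodd : Odd (Nat.card P))
    (hP : P ≠ ⊥) : {x : M | ∀ g ∈ P, g • x = x}.ncard = 4 := by
  have := D.cyclic_of_odd hD P.subtype P.subtype_injective hodd
  obtain ⟨a, ha⟩ := IsCyclic.exists_generator (α := P)
  have ha1 : (a : G) ≠ 1 := by
    intro h
    apply hP
    rw [eq_bot_iff]
    intro y hy
    obtain ⟨k, hk⟩ := Subgroup.mem_zpowers_iff.mp (ha ⟨y, hy⟩)
    have hk' := congrArg Subtype.val hk
    rw [Subgroup.coe_zpow, h, _root_.one_zpow] at hk'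
    rw [Subgroup.mem_bot]
    exact hk'.symm
  have hact : D.act (a : G) = 1 := by
    apply D.act_odd hD
    rw [Subgroup.orderOf_coe]
    exact odd_order hodd a
  have hset : {x : M | ∀ g ∈ P, g • x = x} = (D.iso (a : G) : Set M) := by
    ext x
    rw [Finset.mem_coe, D.mem_iso_iff hD ha1]
    change (∀ g ∈ P, g • x = x) ↔ _
    constructor
    · intro h
      exact h a a.2
    · intro h g hg
      obtain ⟨k, hk⟩ := Subgroup.mem_zpowers_iff.mp (ha ⟨g, hg⟩)
      have hk' := congrArg Subtype.val hk
      rw [Subgroup.coe_zpow] at hk'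
      change (a : G) ^ k = g at hk'
      rw [← hk']
      exact zpow_fix h k
  rw [hset, Set.ncard_coe_finset]
  exact (D.card_iso hD ha1).1 hact

/-- two-groups -/
theorem two_group [Finite G] (hD : D.NotRational) (P : Subgroup G) (hP2 : IsPGroup 2 P)
    (hP : P ≠ ⊥) : ∃ x : M, (MulAction.stabilizer G x).relIndex P ≤ 4 ∧
      ∃! z : G, z ∈ P ∧ z • x = x ∧ orderOf z = 2 := by
  have : Nontrivial P := (Subgroup.nontrivial_iff_ne_bot P).mpr hP
  have hc := hP2.center_nontrivial
  obtain ⟨a, ha⟩ := exists_ne (1 : Subgroup.center P)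
  have hcomm := Subgroup.mem_center_iff.mp a.2
  obtain ⟨k, hk⟩ := (IsPGroup.iff_orderOf.mp hP2) (a : P)
  have hk0 : k ≠ 0 := by
    rintro rfl
    rw [pow_zero, orderOf_eq_one_iff] at hk
    exact ha (Subtype.ext hk)
  obtain ⟨j, rfl⟩ : ∃ j, k = j + 1 := ⟨k - 1, by omega⟩
  set z : P := (a : P) ^ (2 ^ j) with hz
  have hordz : orderOf z = 2 := by
    rw [hz, orderOf_pow_of_dvd (by positivity) (by rw [hk, pow_succ]; exact Dvd.intro _ rfl), hk,
      pow_succ, Nat.mul_div_cancel_left _ (by positivity)]
  have hordz' : orderOf (z : G) = 2 := by rw [Subgroup.orderOf_coe]; exact hordz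
  have hz1 : (z : G) ≠ 1 := ne_one_of_order hordz' (by norm_num)
  have hzcomm : ∀ y : P, y * z = z * y := by
    intro y
    have h1 : Commute y (a : P) := hcomm y
    exact (h1.pow_right (2 ^ j))
  obtain ⟨_, _, hcard⟩ := D.involution hD hordz'
  have hne : (D.iso (z : G)).Nonempty := by
    rw [← Finset.card_pos, hcard]; norm_num
  obtain ⟨x, hx⟩ := hne
  have hzx := (D.mem_iso_iff hD hz1 x).mp hx
  refine ⟨x, ?_, z, ⟨z.2, hzx, hordz'⟩, fun w hw => ?_⟩
  · have e1 : (MulAction.stabilizer G x).relIndex P = (MulAction.stabilizer P x).index := rfl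
    rw [e1, MulAction.index_stabilizer, ← hcard, ← Set.ncard_coe_finset]
    refine Set.ncard_le_ncard ?_ (Finset.finite_toSet _)
    rintro _ ⟨y, rfl⟩
    rw [Finset.mem_coe, D.mem_iso_iff hD hz1]
    change (z : G) • (y : G) • x = (y : G) • x
    have h2 := congrArg Subtype.val (hzcomm y)
    change (y : G) * (z : G) = (z : G) * (y : G) at h2
    rw [← mul_smul, ← h2, mul_smul, hzx]
  · exact D.involution_unique hD hw.2.2 hordz' hw.2.1 hzx

end SymplecticAction

end Pool.Agent.H67.SQ
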