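import Mathlib
import Pool.Agent.H67.SQ.Groups

/-!
# The class equation of a finite group of symplectomorphisms
-/

namespace Pool.Agent.H67.SQ

open Finset

variable {G M : Type} [Group G] [MulAction G M]

namespace SymplecticAction

variable (D : SymplecticAction G M)

/-- counting the pairs of an element different from one and a fixed point of it -/
theorem class_equation [Finite G] (hD : D.NotRational) :
    ∑ᶠ x : M, (Nat.card (MulAction.stabilizer G x) - 1)
      = 2 * Nat.card G + 2 * Nat.card D.act.ker - 4 := by
  classical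
  have hfin : Fintype G := Fintype.ofFinite G
  set A : Finset G := univ.erase 1 with hA
  set F : Finset M := A.biUnion D.iso with hF
  have hcard : ∀ x : M, Nat.card (MulAction.stabilizer G x) - 1
      = (A.filter fun g => x ∈ D.iso g).card := by
    intro x
    have e1 : Nat.card (MulAction.stabilizer G x) = (univ.filter fun g : G => g • x = x).card := by
      rw [Nat.card_eq_fintype_card, Fintype.card_subtype]
      rfl
    have e2 : (A.filter fun g => x ∈ D.iso g) = (univ.filter fun g : G => g • x = x).erase 1 := by
      ext g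
      simp only [hA, Finset.mem_filter, Finset.mem_erase, Finset.mem_univ, and_true, true_and]
      constructor
      · rintro ⟨h1, h2⟩
        exact ⟨h1, (D.mem_iso_iff hD h1 x).mp h2⟩
      · rintro ⟨h1, h2⟩
        exact ⟨h1, (D.mem_iso_iff hD h1 x).mpr h2⟩
    rw [e1, e2, Finset.card_erase_of_mem]
    rw [Finset.mem_filter]
    exact ⟨Finset.mem_univ _, one_smul _ _⟩
  have hsupp : (Function.support fun x : M => Nat.card (MulAction.stabilizer G x) - 1)
      ⊆ (F : Set M) := by
    intro x hx
    rw [Function.mem_support, hcard x] at hx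
    obtain ⟨g, hg⟩ := Finset.card_pos.mp (Nat.pos_of_ne_zero hx)
    rw [Finset.mem_filter] at hg
    rw [Finset.mem_coe, hF, Finset.mem_biUnion]
    exact ⟨g, hg.1, hg.2⟩
  rw [finsum_eq_sum_of_support_subset _ hsupp, Finset.sum_congr rfl fun x _ => hcard x]
  have hswap : ∑ x ∈ F, (A.filter fun g => x ∈ D.iso g).card
      = ∑ g ∈ A, (D.iso g).card := by
    have h1 := Finset.sum_card_bipartiteAbove_eq_sum_card_bipartiteBelow (s := F) (t := A)
      (fun (x : M) (g : G) => x ∈ D.iso g)
    unfold Finset.bipartiteAbove Finset.bipartiteBelow at h1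
    rw [h1]
    refine Finset.sum_congr rfl fun g hg => ?_
    congr 1
    ext x
    rw [Finset.mem_filter]
    refine ⟨fun h => h.2, fun h => ⟨?_, h⟩⟩
    rw [hF, Finset.mem_biUnion]
    exact ⟨g, hg, h⟩
  rw [hswap]
  have hval : ∀ g ∈ A, (D.iso g).card = 2 + if D.act g = 1 then 2 else 0 := by
    intro g hg
    have hg1 : g ≠ 1 := (Finset.mem_erase.mp hg).1
    split_ifs with h
    · exact (D.card_iso hD hg1).1 h
    · exact (D.card_iso hD hg1).2 h
  rw [Finset.sum_congr rfl hval]
  have htot : (∑ g ∈ A, (2 + if D.act g = 1 then 2 else 0)) + 4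
      = 2 * Nat.card G + 2 * Nat.card D.act.ker := by
    have e1 : (∑ g ∈ A, (2 + if D.act g = 1 then 2 else 0)) + 4
        = ∑ g : G, (2 + if D.act g = 1 then 2 else 0) := by
      rw [hA, ← Finset.sum_erase_add _ _ (Finset.mem_univ (1 : G))]
      simp
    rw [e1, Finset.sum_add_distrib, Finset.sum_const, Finset.card_univ, smul_eq_mul,
      ← Finset.sum_filter, Finset.sum_const, smul_eq_mul, Nat.card_eq_fintype_card]
    have e2 : (univ.filter fun g : G => D.act g = 1).card = Nat.card D.act.ker := by
      rw [Nat.card_eq_fintype_card, Fintype.card_subtype]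
      congr 1
      ext g
      simp [MonoidHom.mem_ker]
    rw [e2]
    ring
  omega

end SymplecticAction

end Pool.Agent.H67.SQ
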