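import Mathlib
import Pool.Agent.H67.SQ.Core

/-!
# The hypotheses can be satisfied

The numerical data of the linear actions: a cyclic group of any order which acts trivially on
the cohomology and has four fixed points with the rotation numbers `(1, 1)`, `(1, -1)`, `(1, 1)`,
`(1, -1)`, and a cyclic group of order four whose generators exchange `e` and `f` and have two
fixed points.
-/

namespace Pool.Agent.H67.SQ

open Matrix

lemma cot_neg {z : ℂ} (h0 : z ≠ 0) (h1 : z ≠ 1) :
    (1 + z⁻¹) / (1 - z⁻¹) = -((1 + z) / (1 - z)) := by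
  have h2 : 1 - z ≠ 0 := sub_ne_zero.mpr (Ne.symm h1)
  have h3 : 1 - z⁻¹ ≠ 0 := by
    intro h
    apply h1
    have h4 : z⁻¹ = 1 := (sub_eq_zero.mp h).symm
    rwa [inv_eq_one] at h4
  rw [div_eq_iff h3, ← neg_div, div_mul_eq_mul_div, eq_div_iff h2]
  field_simp
  ring

lemma det_diag_sub (a b : ℂ) :
    (1 - (Matrix.diagonal ![a, b] : Matrix (Fin 2) (Fin 2) ℂ)).det = (1 - a) * (1 - b) := by
  rw [Matrix.det_fin_two]
  simp

lemma det_diag_add (a b : ℂ) :
    (1 + (Matrix.diagonal ![a, b] : Matrix (Fin 2) (Fin 2) ℂ)).det = (1 + a) * (1 + b) := by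
  rw [Matrix.det_fin_two]
  simp

/-- the sign of the second rotation number -/
def eps (x : Fin 4) : ℤ := if x = 0 ∨ x = 2 then 1 else -1

/-- a cyclic group with four fixed points -/
noncomputable def cyclicData (n : ℕ) [MulAction (rootsOfUnity n ℂ) (Fin 4)]
    (htriv : ∀ (g : rootsOfUnity n ℂ) (x : Fin 4), g • x = x) :
    SymplecticAction (rootsOfUnity n ℂ) (Fin 4) where
  ω := ![1, 1]
  ω_pos i := by fin_cases i <;> simp
  K := ![2, 2]
  K_even i := by fin_cases i <;> exact ⟨1, rfl⟩
  K_sq := by simp [dot]
  act := 1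
  act_dot g x y := by simp
  act_K g := by simp
  lin g x := Matrix.diagonal ![((g : ℂˣ) : ℂ), (((g : ℂˣ) ^ eps x : ℂˣ) : ℂ)]
  lin_one x := by
    ext i j
    fin_cases i <;> fin_cases j <;> simp
  lin_mul g h x _ _ := by
    rw [Matrix.diagonal_mul_diagonal]
    congr 1
    ext i
    fin_cases i
    · simp
    · simp [mul_zpow]
  iso _ := Finset.univ
  mem_iso g hg x := by
    have h1 : ((g : ℂˣ) : ℂ) ≠ 1 := by
      intro h
      apply hg
      exact Subtype.ext (Units.ext h)
    have h2 : (((g : ℂˣ) ^ eps x : ℂˣ) : ℂ) ≠ 1 := by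
      unfold eps
      split_ifs
      · simpa using h1
      · simpa using h1
    rw [det_diag_sub]
    simp only [Finset.mem_univ, true_iff]
    exact ⟨htriv g x, mul_ne_zero (sub_ne_zero.mpr h1.symm) (sub_ne_zero.mpr h2.symm)⟩
  surfaces _ := []
  mem_surfaces g hg x := by
    have h1 : ((g : ℂˣ) : ℂ) ≠ 1 := by
      intro h
      apply hg
      exact Subtype.ext (Units.ext h)
    have h2 : (((g : ℂˣ) ^ eps x : ℂˣ) : ℂ) ≠ 1 := by
      unfold eps
      split_ifs
      · simpa using h1
      · simpa using h1
    rw [det_diag_sub]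
    constructor
    · rintro ⟨S, hS, _⟩
      simp at hS
    · rintro ⟨_, h⟩
      exact absurd h (mul_ne_zero (sub_ne_zero.mpr h1.symm) (sub_ne_zero.mpr h2.symm))
  nonempty g _ S hS := by simp at hS
  normal_pow g _ S hS := by simp at hS
  surfaces_pow g _ j _ := rfl
  disjoint g _ := List.Pairwise.nil
  area g _ S hS := by simp at hS
  adjunction g _ S hS := by simp at hS
  lefschetz g _ := by simp
  signature g hg := by
    have h1 : ((g : ℂˣ) : ℂ) ≠ 1 := by
      intro h
      apply hg
      exact Subtype.ext (Units.ext h)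
    have h0 : ((g : ℂˣ) : ℂ) ≠ 0 := Units.ne_zero _
    have hc := cot_neg h0 h1
    simp only [det_diag_sub, det_diag_add, mul_div_mul_comm, List.map_nil, List.sum_nil,
      add_zero, Fin.sum_univ_four]
    simp only [eps, Fin.isValue, true_or, if_true, zpow_one, Fin.reduceEq, or_self, or_true,
      if_false, _root_.zpow_neg, Units.val_inv_eq_inv_val, hc, MonoidHom.one_apply, one_trace]
    push_cast
    ring
  spin g _ := Or.inr rfl
  edmonds g _ _ S hS := by simp at hS

theorem exists_cyclic (n : ℕ) :
    ∃ (_ : MulAction (rootsOfUnity n ℂ) (Fin 4)) (D : SymplecticAction (rootsOfUnity n ℂ) (Fin 4)),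
      D.NotRational ∧ ∀ g, D.act g = 1 := by
  let a : MulAction (rootsOfUnity n ℂ) (Fin 4) :=
    { smul := fun _ x => x
      one_smul := fun _ => rfl
      mul_smul := fun _ _ _ => rfl }
  refine ⟨a, cyclicData n (fun _ _ => rfl), ?_, fun _ => rfl⟩
  simp [SymplecticAction.NotRational, cyclicData]

/-- the character of `ℤ/4` -/
noncomputable def chi (g : Multiplicative (ZMod 4)) : ℂ := Complex.I ^ (g.toAdd.val)

lemma chi_mul (g h : Multiplicative (ZMod 4)) : chi (g * h) = chi g * chi h := by
  unfold chi
  rw [← pow_add, toAdd_mul, ZMod.val_add, ← Complex.I_pow_eq_pow_mod]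

lemma chi_ne_zero (g : Multiplicative (ZMod 4)) : chi g ≠ 0 := by
  unfold chi
  exact pow_ne_zero _ Complex.I_ne_zero

lemma chi_cases {g : Multiplicative (ZMod 4)} (hg : g ≠ 1) :
    (g.toAdd = 1 ∧ chi g = Complex.I) ∨ (g.toAdd = 2 ∧ chi g = -1) ∨
      (g.toAdd = 3 ∧ chi g = -Complex.I) := by
  unfold chi
  generalize hx : g.toAdd = x
  have hx0 : x ≠ 0 := by
    rintro rfl
    exact hg (toAdd_eq_zero.mp hx)
  clear hx hg g
  fin_cases x
  · exact absurd rfl hx0
  · left; exact ⟨rfl, pow_one _⟩
  · right; left; exact ⟨rfl, Complex.I_sq⟩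
  · right; right; exact ⟨rfl, Complex.I_pow_three⟩

lemma chi_ne_one {g : Multiplicative (ZMod 4)} (hg : g ≠ 1) : chi g ≠ 1 := by
  rcases chi_cases hg with ⟨_, h⟩ | ⟨_, h⟩ | ⟨_, h⟩ <;> rw [h]
  · intro h'
    have := congrArg Complex.re h'
    simp at this
  · norm_num
  · intro h'
    have := congrArg Complex.re h'
    simp at this

/-- the generator exchanges two of the four points -/
@[reducible] def quarter : MulAction (Multiplicative (ZMod 4)) (Fin 4) where
  smul g x := if g.toAdd = 1 ∨ g.toAdd = 3 then Equiv.swap 2 3 x else x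
  one_smul := by decide
  mul_smul := by decide

/-- the generator exchanges `e` and `f` -/
def quarterAct : Multiplicative (ZMod 4) →* Matrix (Fin 2) (Fin 2) ℤ where
  toFun g := if g.toAdd = 1 ∨ g.toAdd = 3 then J else 1
  map_one' := by
    rw [if_neg]
    decide
  map_mul' := by
    have h1 := J_mul
    intro a b
    by_cases ha : a.toAdd = 1 ∨ a.toAdd = 3 <;> by_cases hb : b.toAdd = 1 ∨ b.toAdd = 3
    · rw [if_pos ha, if_pos hb, h1, if_neg]
      revert a b
      decide
    · rw [if_pos ha, if_neg hb, mul_one, if_pos]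
      revert a b
      decide
    · rw [if_neg ha, if_pos hb, one_mul, if_pos]
      revert a b
      decide
    · rw [if_neg ha, if_neg hb, one_mul, if_neg]
      revert a b
      decide

lemma quarterAct_one {g : Multiplicative (ZMod 4)} (h : g.toAdd = 1 ∨ g.toAdd = 3) :
    quarterAct g = J := if_pos h

lemma quarterAct_two {g : Multiplicative (ZMod 4)} (h : g.toAdd = 2) : quarterAct g = 1 := by
  refine if_neg ?_
  rw [h]
  decide

lemma quarterAct_cases (g : Multiplicative (ZMod 4)) : quarterAct g = J ∨ quarterAct g = 1 := by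
  by_cases h : g.toAdd = 1 ∨ g.toAdd = 3
  · exact Or.inl (if_pos h)
  · exact Or.inr (if_neg h)

lemma J_mulVec (x : Fin 2 → ℤ) : J *ᵥ x = ![x 1, x 0] := by
  ext i
  fin_cases i <;> simp [J, Matrix.mulVec, dotProduct, Fin.sum_univ_two]

/-- the isolated fixed points of the second example -/
def quarterIso (g : Multiplicative (ZMod 4)) : Finset (Fin 4) :=
  if g.toAdd = 2 then Finset.univ else {0, 1}

lemma quarter_fix : ∀ g : Multiplicative (ZMod 4), g ≠ 1 → ∀ x : Fin 4,
    x ∈ quarterIso g ↔ quarter.smul g x = x := by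
  decide

lemma det_ne {g : Multiplicative (ZMod 4)} (hg : g ≠ 1) :
    (1 - (Matrix.diagonal ![chi g, (chi g)⁻¹] : Matrix (Fin 2) (Fin 2) ℂ)).det ≠ 0 := by
  rw [det_diag_sub]
  have h1 := chi_ne_one hg
  have h2 : (chi g)⁻¹ ≠ 1 := by
    intro h
    rw [inv_eq_one] at h
    exact h1 h
  exact mul_ne_zero (sub_ne_zero.mpr h1.symm) (sub_ne_zero.mpr h2.symm)

/-- a cyclic group of order four whose generators exchange `e` and `f` -/
noncomputable def quarterData : @SymplecticAction (Multiplicative (ZMod 4)) (Fin 4) _ quarter :=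
  letI := quarter
  { ω := ![1, 1]
    ω_pos := fun i => by fin_cases i <;> simp
    K := ![2, 2]
    K_even := fun i => by fin_cases i <;> exact ⟨1, rfl⟩
    K_sq := by simp [dot]
    act := quarterAct
    act_dot := fun g x y => by
      rcases quarterAct_cases g with h | h
      · rw [h, J_mulVec, J_mulVec]
        simp only [dot, Matrix.cons_val_zero, Matrix.cons_val_one]
        ring
      · rw [h, Matrix.one_mulVec, Matrix.one_mulVec]
    act_K := fun g => by
      rcases quarterAct_cases g with h | h
      · rw [h, J_mulVec]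
        rfl
      · rw [h, Matrix.one_mulVec]
    lin := fun g _ => Matrix.diagonal ![chi g, (chi g)⁻¹]
    lin_one := fun x => by
      have h : chi 1 = 1 := pow_zero _
      rw [h]
      ext i j
      fin_cases i <;> fin_cases j <;> simp
    lin_mul := fun g h x _ _ => by
      rw [Matrix.diagonal_mul_diagonal, chi_mul]
      congr 1
      ext i
      fin_cases i
      · simp
      · simp [mul_comm]
    iso := quarterIso
    mem_iso := fun g hg x => by
      rw [quarter_fix g hg x]
      exact ⟨fun h => ⟨h, det_ne hg⟩, fun h => h.1⟩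
    surfaces := fun _ => []
    mem_surfaces := fun g hg x => by
      constructor
      · rintro ⟨S, hS, _⟩
        simp at hS
      · rintro ⟨_, h⟩
        exact absurd h (det_ne hg)
    nonempty := fun g _ S hS => by simp at hS
    normal_pow := fun g _ S hS => by simp at hS
    surfaces_pow := fun g _ j _ => rfl
    disjoint := fun g _ => List.Pairwise.nil
    area := fun g _ S hS => by simp at hS
    adjunction := fun g _ S hS => by simp at hS
    lefschetz := fun g hg => by
      rcases chi_cases hg with ⟨h, _⟩ | ⟨h, _⟩ | ⟨h, _⟩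
      · rw [quarterAct_one (Or.inl h), J_trace, quarterIso, if_neg (by rw [h]; decide)]
        rfl
      · rw [quarterAct_two h, one_trace, quarterIso, if_pos h]
        rfl
      · rw [quarterAct_one (Or.inr h), J_trace, quarterIso, if_neg (by rw [h]; decide)]
        rfl
    signature := fun g hg => by
      have h1 := chi_ne_one hg
      have hc := cot_neg (chi_ne_zero g) h1
      have hterm : (1 + (Matrix.diagonal ![chi g, (chi g)⁻¹] : Matrix (Fin 2) (Fin 2) ℂ)).det
          / (1 - (Matrix.diagonal ![chi g, (chi g)⁻¹] : Matrix (Fin 2) (Fin 2) ℂ)).det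
          = -((1 + chi g) / (1 - chi g)) ^ 2 := by
        rw [det_diag_add, det_diag_sub, mul_div_mul_comm, hc]
        ring
      rw [Finset.sum_const, hterm]
      simp only [List.map_nil, List.sum_nil, add_zero]
      have hI : (1 - Complex.I) ≠ 0 := by
        intro h
        have := congrArg Complex.re h
        simp at this
      have hI' : (1 + Complex.I) ≠ 0 := by
        intro h
        have := congrArg Complex.re h
        simp at this
      rcases chi_cases hg with ⟨h, h'⟩ | ⟨h, h'⟩ | ⟨h, h'⟩
      · rw [quarterAct_one (Or.inl h), J_trace, quarterIso, if_neg (by rw [h]; decide), h',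
          show (1 + Complex.I) / (1 - Complex.I) = Complex.I by
            rw [div_eq_iff hI]
            linear_combination Complex.I_sq, Complex.I_sq]
        norm_num
      · rw [quarterAct_two h, one_trace, quarterIso, if_pos h, h']
        norm_num
      · rw [quarterAct_one (Or.inr h), J_trace, quarterIso, if_neg (by rw [h]; decide), h',
          show (1 + -Complex.I) / (1 - -Complex.I) = -Complex.I by
            rw [sub_neg_eq_add, div_eq_iff hI']
            linear_combination Complex.I_sq, neg_sq, Complex.I_sq]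
        norm_num
    spin := fun g _ => Or.inr rfl
    edmonds := fun g _ _ S hS => by simp at hS }

theorem exists_quarter :
    ∃ (_ : MulAction (Multiplicative (ZMod 4)) (Fin 4))
      (D : SymplecticAction (Multiplicative (ZMod 4)) (Fin 4)),
      D.NotRational ∧ ∃ g, D.act g ≠ 1 := by
  refine ⟨quarter, quarterData, ?_, Multiplicative.ofAdd 1, ?_⟩
  · simp [SymplecticAction.NotRational, quarterData]
  · change quarterAct _ ≠ 1
    rw [quarterAct_one (g := Multiplicative.ofAdd 1) (Or.inl rfl)]
    exact J_ne

end Pool.Agent.H67.SQ
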